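import Pool.Agent.Lib.MP_1a91b9_ntV.A.V7

/-!
# The field `ℚ(√-7)`: coordinates, the places over `2`, the primes, the symbols

`ra`, `rb : 𝓞 K →+* ZMod 8` the reductions at the places `a` and `ab` (`a ↦ 6`, resp. `a ↦ 3`), `bE`, `bF` the
bits of `(-1)^e 5^f`, `Pg7` the generators congruent to `1` modulo `a²` of the prime ideals prime to `2`, `ch q` the
quadratic symbol modulo `q`.
-/

set_option autoImplicit false
set_option linter.unusedSectionVars false

namespace Pool.Agent.Lib.MP_1a91b9_ntV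

open NumberField Pool.Agent.Lib.MP_1a91b9_nuT Pool.Agent.Lib.MP_1a91b9_ntQ

noncomputable section

variable [CD] [hv : V7]

/-! ### coordinates -/

/-- the coordinates -/
def c0 (x : 𝓞 K) : ℤ := (CD.gen x).choose

/-- the coordinates -/
def c1 (x : 𝓞 K) : ℤ := (CD.gen x).choose_spec.choose

theorem coo (x : 𝓞 K) : x = (c0 x : 𝓞 K) + (c1 x : 𝓞 K) * ta := (CD.gen x).choose_spec.choose_spec

theorem coo_em (x : 𝓞 K) : em x = (c0 x : ℂ) + (c1 x : ℂ) * zt := by
  conv_lhs => rw [coo x]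
  rw [em_add, em_mul, em_intCast, em_intCast, em_ta]

theorem coo_of {x : 𝓞 K} {m n : ℤ} (h : x = (m : 𝓞 K) + (n : 𝓞 K) * ta) : c0 x = m ∧ c1 x = n := by
  have h1 := coo_em x
  have h2 : em x = (m : ℂ) + (n : ℂ) * zt := by
    rw [h, em_add, em_mul, em_intCast, em_intCast, em_ta]
  exact coords_inj (h1.symm.trans h2)

theorem ta_sq : (ta : 𝓞 K) ^ 2 = ta - 2 := by
  have h := CD.quad
  rw [hv.tr, hv.nm] at h
  push_cast at h
  linear_combination h

/-- the conjugate of `ta` -/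
abbrev tb : 𝓞 K := 1 - ta

theorem em_tb : em (tb : 𝓞 K) = ab := by rw [em_sub, em_one, em_ta, ab]

theorem ta_mul_tb : (ta : 𝓞 K) * tb = 2 := by linear_combination -ta_sq

theorem tb_sq : (tb : 𝓞 K) ^ 2 = tb - 2 := by linear_combination ta_sq

theorem ta_add_tb : (ta : 𝓞 K) + tb = 1 := by ring

theorem ta_tb_cop : IsCoprime (ta : 𝓞 K) tb := ⟨1, 1, by ring⟩

theorem ta_ne : (ta : 𝓞 K) ≠ 0 := by
  intro h
  have := ta_mul_tb
  rw [h, zero_mul] at this
  exact two_ne_zero this.symm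

theorem tb_ne : (tb : 𝓞 K) ≠ 0 := by
  intro h
  have := ta_mul_tb
  rw [h, mul_zero] at this
  exact two_ne_zero this.symm

theorem c0_zero : c0 (0 : 𝓞 K) = 0 := (coo_of (m := 0) (n := 0) (by simp)).1
theorem c1_zero : c1 (0 : 𝓞 K) = 0 := (coo_of (m := 0) (n := 0) (by simp)).2
theorem c0_one : c0 (1 : 𝓞 K) = 1 := (coo_of (m := 1) (n := 0) (by simp)).1
theorem c1_one : c1 (1 : 𝓞 K) = 0 := (coo_of (m := 1) (n := 0) (by simp)).2

theorem coo_add (x y : 𝓞 K) : c0 (x + y) = c0 x + c0 y ∧ c1 (x + y) = c1 x + c1 y := by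
  refine coo_of ?_
  push_cast
  linear_combination coo x + coo y

theorem coo_mul (x y : 𝓞 K) : c0 (x * y) = c0 x * c0 y - 2 * (c1 x * c1 y) ∧
    c1 (x * y) = c0 x * c1 y + c1 x * c0 y + c1 x * c1 y := by
  refine coo_of ?_
  conv_lhs => rw [coo x, coo y]
  push_cast
  linear_combination (c1 x : 𝓞 K) * (c1 y : 𝓞 K) * ta_sq

/-! ### the reductions -/

/-- the reduction at the place `a` -/
def ra : 𝓞 K →+* ZMod 8 where
  toFun x := (c0 x : ZMod 8) + 6 * (c1 x : ZMod 8)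
  map_zero' := by rw [c0_zero, c1_zero]; simp
  map_one' := by rw [c0_one, c1_one]; simp
  map_add' x y := by
    rw [(coo_add x y).1, (coo_add x y).2]
    push_cast
    ring
  map_mul' x y := by
    rw [(coo_mul x y).1, (coo_mul x y).2]
    push_cast
    have h : (32 : ZMod 8) = 0 := by decide
    linear_combination (-(c1 x : ZMod 8) * (c1 y : ZMod 8)) * h

/-- the reduction at the place `ab` -/
def rb : 𝓞 K →+* ZMod 8 where
  toFun x := (c0 x : ZMod 8) + 3 * (c1 x : ZMod 8)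
  map_zero' := by rw [c0_zero, c1_zero]; simp
  map_one' := by rw [c0_one, c1_one]; simp
  map_add' x y := by
    rw [(coo_add x y).1, (coo_add x y).2]
    push_cast
    ring
  map_mul' x y := by
    rw [(coo_mul x y).1, (coo_mul x y).2]
    push_cast
    have h : (8 : ZMod 8) = 0 := by decide
    linear_combination (-(c1 x : ZMod 8) * (c1 y : ZMod 8)) * h

theorem ra_apply (x : 𝓞 K) : ra x = (c0 x : ZMod 8) + 6 * (c1 x : ZMod 8) := rfl

theorem rb_apply (x : 𝓞 K) : rb x = (c0 x : ZMod 8) + 3 * (c1 x : ZMod 8) := rfl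

theorem coo_ta : c0 (ta : 𝓞 K) = 0 ∧ c1 (ta : 𝓞 K) = 1 := coo_of (by simp)

theorem ra_ta : ra (ta : 𝓞 K) = 6 := by
  rw [ra_apply, coo_ta.1, coo_ta.2]
  simp

theorem rb_ta : rb (ta : 𝓞 K) = 3 := by
  rw [rb_apply, coo_ta.1, coo_ta.2]
  simp

theorem ra_tb : ra (tb : 𝓞 K) = 3 := by
  rw [map_sub, map_one, ra_ta]
  decide

theorem rb_tb : rb (tb : 𝓞 K) = 6 := by
  rw [map_sub, map_one, rb_ta]
  decide

section gen

variable {g x : 𝓞 K} {m n : ℤ} (hg : g ^ 2 = g - 2) (hx : x = (m : 𝓞 K) + (n : 𝓞 K) * g)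
include hg hx

private theorem red3 (h : (m : ZMod 8) + 6 * (n : ZMod 8) = 0) : g ^ 3 ∣ x := by
  have h1 : (((m + 6 * n : ℤ)) : ZMod 8) = 0 := by
    push_cast
    exact h
  rw [ZMod.intCast_zmod_eq_zero_iff_dvd] at h1
  obtain ⟨k, hk⟩ := h1
  have e1 : (8 : 𝓞 K) = g ^ 3 * (1 - g) ^ 3 := by
    linear_combination (g ^ 4 - 2 * g ^ 3 - g ^ 2 + 2 * g + 4) * hg
  have e2 : g - 6 = g ^ 3 * (-g ^ 2) := by
    linear_combination (g ^ 3 + g ^ 2 - g - 3) * hg
  have hm : (m : 𝓞 K) = 8 * (k : 𝓞 K) - 6 * (n : 𝓞 K) := by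
    have : m = 8 * k - 6 * n := by
      have h2 : m + 6 * n = 8 * k := by exact_mod_cast hk
      omega
    rw [this]
    push_cast
    ring
  have e3 : x = 8 * (k : 𝓞 K) + (n : 𝓞 K) * (g - 6) := by
    rw [hx, hm]
    ring
  rw [e3, e1, e2]
  exact dvd_add (Dvd.dvd.mul_right (dvd_mul_right _ _) _) (Dvd.dvd.mul_left (dvd_mul_right _ _) _)

private theorem red2 (h : 2 * ((m : ZMod 8) + 6 * (n : ZMod 8)) = 0) : g ^ 2 ∣ x := by
  have h1 : (((2 * (m + 6 * n) : ℤ)) : ZMod 8) = 0 := by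
    push_cast
    exact h
  rw [ZMod.intCast_zmod_eq_zero_iff_dvd] at h1
  obtain ⟨k, hk⟩ := h1
  have e1 : (4 : 𝓞 K) = g ^ 2 * (1 - g) ^ 2 := by
    linear_combination (-g ^ 2 + g + 2) * hg
  have e2 : g - 6 = g ^ 2 * (-g ^ 3) := by
    linear_combination (g ^ 3 + g ^ 2 - g - 3) * hg
  have hm : (m : 𝓞 K) = 4 * (k : 𝓞 K) - 6 * (n : 𝓞 K) := by
    have : m = 4 * k - 6 * n := by
      have h2 : 2 * (m + 6 * n) = 8 * k := by exact_mod_cast hk
      omega
    rw [this]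
    push_cast
    ring
  have e3 : x = 4 * (k : 𝓞 K) + (n : 𝓞 K) * (g - 6) := by
    rw [hx, hm]
    ring
  rw [e3, e1, e2]
  exact dvd_add (Dvd.dvd.mul_right (dvd_mul_right _ _) _) (Dvd.dvd.mul_left (dvd_mul_right _ _) _)

private theorem red1 (h : 4 * ((m : ZMod 8) + 6 * (n : ZMod 8)) = 0) : g ∣ x := by
  have h1 : (((4 * (m + 6 * n) : ℤ)) : ZMod 8) = 0 := by
    push_cast
    exact h
  rw [ZMod.intCast_zmod_eq_zero_iff_dvd] at h1
  obtain ⟨k, hk⟩ := h1
  have e1 : (2 : 𝓞 K) = g * (1 - g) := by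
    linear_combination hg
  have hm : (m : 𝓞 K) = 2 * (k : 𝓞 K) - 6 * (n : 𝓞 K) := by
    have : m = 2 * k - 6 * n := by
      have h2 : 4 * (m + 6 * n) = 8 * k := by exact_mod_cast hk
      omega
    rw [this]
    push_cast
    ring
  have e3 : x = 2 * ((k : 𝓞 K) - 3 * (n : 𝓞 K)) + (n : 𝓞 K) * g := by
    rw [hx, hm]
    ring
  rw [e3, e1]
  exact dvd_add (Dvd.dvd.mul_right (dvd_mul_right _ _) _) (dvd_mul_left _ _)

end gen

theorem ta3_dvd {x : 𝓞 K} : ta ^ 3 ∣ x ↔ ra x = 0 := by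
  constructor
  · rintro ⟨y, rfl⟩
    rw [map_mul, map_pow, ra_ta]
    have : (6 : ZMod 8) ^ 3 = 0 := by decide
    rw [this, zero_mul]
  · intro h
    exact red3 ta_sq (coo x) h

theorem ta2_dvd {x : 𝓞 K} : ta ^ 2 ∣ x ↔ 2 * ra x = 0 := by
  constructor
  · rintro ⟨y, rfl⟩
    rw [map_mul, map_pow, ra_ta, ← mul_assoc]
    have : (2 : ZMod 8) * 6 ^ 2 = 0 := by decide
    rw [this, zero_mul]
  · intro h
    exact red2 ta_sq (coo x) h

theorem ta_dvd {x : 𝓞 K} : ta ∣ x ↔ 4 * ra x = 0 := by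
  constructor
  · rintro ⟨y, rfl⟩
    rw [map_mul, ra_ta, ← mul_assoc]
    have : (4 : ZMod 8) * 6 = 0 := by decide
    rw [this, zero_mul]
  · intro h
    exact red1 ta_sq (coo x) h

theorem coo' (x : 𝓞 K) : x = ((c0 x + c1 x : ℤ) : 𝓞 K) + ((-c1 x : ℤ) : 𝓞 K) * tb := by
  push_cast
  linear_combination coo x

theorem rb_apply' (x : 𝓞 K) :
    rb x = ((c0 x + c1 x : ℤ) : ZMod 8) + 6 * ((-c1 x : ℤ) : ZMod 8) := by
  rw [rb_apply]
  push_cast
  have h : (8 : ZMod 8) = 0 := by decide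
  linear_combination ((c1 x : ZMod 8)) * h

theorem tb3_dvd {x : 𝓞 K} : tb ^ 3 ∣ x ↔ rb x = 0 := by
  constructor
  · rintro ⟨y, rfl⟩
    rw [map_mul, map_pow, rb_tb]
    have : (6 : ZMod 8) ^ 3 = 0 := by decide
    rw [this, zero_mul]
  · intro h
    rw [rb_apply'] at h
    exact red3 tb_sq (coo' x) h

theorem tb2_dvd {x : 𝓞 K} : tb ^ 2 ∣ x ↔ 2 * rb x = 0 := by
  constructor
  · rintro ⟨y, rfl⟩
    rw [map_mul, map_pow, rb_tb, ← mul_assoc]
    have : (2 : ZMod 8) * 6 ^ 2 = 0 := by decide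
    rw [this, zero_mul]
  · intro h
    rw [rb_apply'] at h
    exact red2 tb_sq (coo' x) h

theorem tb_dvd {x : 𝓞 K} : tb ∣ x ↔ 4 * rb x = 0 := by
  constructor
  · rintro ⟨y, rfl⟩
    rw [map_mul, rb_tb, ← mul_assoc]
    have : (4 : ZMod 8) * 6 = 0 := by decide
    rw [this, zero_mul]
  · intro h
    rw [rb_apply'] at h
    exact red1 tb_sq (coo' x) h

/-! ### units, primes -/

theorem no_four (u : ZMod 8) : 4 * u = 0 ∨ 4 * u = 4 := by
  revert u
  decide

theorem ta_prime : Prime (ta : 𝓞 K) := by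
  refine ⟨ta_ne, fun h => ?_, fun x y h => ?_⟩
  · have h1 : ta ∣ (1 : 𝓞 K) := h.dvd
    rw [ta_dvd, map_one] at h1
    exact absurd h1 (by decide)
  · rw [ta_dvd, map_mul] at h
    rw [ta_dvd, ta_dvd]
    revert h
    generalize ra x = u
    generalize ra y = w
    revert u w
    decide

theorem tb_prime : Prime (tb : 𝓞 K) := by
  refine ⟨tb_ne, fun h => ?_, fun x y h => ?_⟩
  · have h1 : tb ∣ (1 : 𝓞 K) := h.dvd
    rw [tb_dvd, map_one] at h1
    exact absurd h1 (by decide)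
  · rw [tb_dvd, map_mul] at h
    rw [tb_dvd, tb_dvd]
    revert h
    generalize rb x = u
    generalize rb y = w
    revert u w
    decide

/-- the norm -/
theorem norm_eq (u : 𝓞 K) : Algebra.norm ℤ u = c0 u ^ 2 + c0 u * c1 u + 2 * c1 u ^ 2 := by
  have h2 : ((Algebra.norm ℤ u : ℤ) : ℂ) = ((c0 u : ℂ) + c1 u * zt) * ((c0 u : ℂ) + c1 u * ab) := by
    rw [S3.norm_O]
    change em u * (starRingEnd ℂ) (em u) = _
    rw [coo_em, map_add, map_mul, map_intCast, map_intCast, S3.conj_zt, hv.tr, ab]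
    push_cast
    ring
  have h4 : ((Algebra.norm ℤ u : ℤ) : ℂ) = ((c0 u ^ 2 + c0 u * c1 u + 2 * c1 u ^ 2 : ℤ) : ℂ) := by
    rw [h2]
    push_cast
    have h5 : ab = 1 - zt := rfl
    rw [h5]
    linear_combination (-(c1 u : ℂ) ^ 2) * zt_sq
  exact_mod_cast h4

/-- the norm modulo `8` -/
theorem norm_mod (u : 𝓞 K) : ((Algebra.norm ℤ u : ℤ) : ZMod 8) = ra u * rb u := by
  rw [norm_eq, ra_apply, rb_apply]
  push_cast
  have h : (8 : ZMod 8) = 0 := by decide
  linear_combination (-(c0 u : ZMod 8) * (c1 u : ZMod 8) - 2 * (c1 u : ZMod 8) ^ 2) * h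

/-- the units -/
theorem unit_eq {u : 𝓞 K} (h : IsUnit u) : u = 1 ∨ u = -1 := by
  have h1 : Algebra.norm ℤ u = 1 ∨ Algebra.norm ℤ u = -1 := by
    have := h.map (Algebra.norm ℤ)
    exact Int.isUnit_iff.1 this
  have h3 := norm_eq u
  have h4 : c1 u = 0 := by
    by_contra h5
    have h6 : 1 ≤ c1 u ^ 2 := by
      have := sq_nonneg (c1 u)
      have h7 : c1 u ^ 2 ≠ 0 := pow_ne_zero 2 h5
      omega
    rcases h1 with h1 | h1 <;> nlinarith [sq_nonneg (2 * c0 u + c1 u)]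
  have h5 : c0 u ^ 2 = 1 := by
    rw [h4] at h3
    rcases h1 with h1 | h1
    · nlinarith
    · nlinarith [sq_nonneg (c0 u)]
  have h6 : c0 u = 1 ∨ c0 u = -1 := by
    have : (c0 u - 1) * (c0 u + 1) = 0 := by linear_combination h5
    rcases mul_eq_zero.1 this with h | h
    · exact Or.inl (by omega)
    · exact Or.inr (by omega)
  have h7 := coo u
  rw [h4] at h7
  rcases h6 with h6 | h6
  · left
    rw [h7, h6]
    simp
  · right
    rw [h7, h6]
    simp

/-- the primes: the generators of the prime ideals prime to `2` congruent to `1` modulo `a²` -/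
def Pg7 : Type := {q : 𝓞 K // Prime q ∧ ta ^ 2 ∣ q - 1 ∧ ¬ tb ∣ q}

instance : DecidableEq Pg7 := Classical.decEq _

theorem Pg7.prime (q : Pg7) : Prime q.1 := q.2.1

theorem Pg7.ra2 (q : Pg7) : 2 * ra q.1 = 2 := by
  have h := ta2_dvd.1 q.2.2.1
  rw [map_sub, map_one] at h
  linear_combination h

theorem Pg7.not_ta (q : Pg7) : ¬ ta ∣ q.1 := by
  rw [ta_dvd]
  have h := q.ra2
  revert h
  generalize ra q.1 = u
  revert u
  decide

theorem Pg7.not_tb (q : Pg7) : ¬ tb ∣ q.1 := q.2.2.2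

theorem Pg7.not_two (q : Pg7) : ¬ q.1 ∣ (2 : 𝓞 K) := by
  intro h
  rw [← ta_mul_tb] at h
  rcases q.prime.dvd_or_dvd h with h | h
  · exact q.not_ta ((q.prime.dvd_prime_iff_associated ta_prime).1 h).symm.dvd
  · exact q.not_tb ((q.prime.dvd_prime_iff_associated tb_prime).1 h).symm.dvd

theorem Pg7.cop_ta (q : Pg7) : IsCoprime q.1 ta :=
  (ta_prime.irreducible.coprime_iff_not_dvd.2 q.not_ta).symm

theorem Pg7.cop_tb (q : Pg7) : IsCoprime q.1 tb :=
  (tb_prime.irreducible.coprime_iff_not_dvd.2 q.not_tb).symm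

/-- two different primes do not divide each other -/
theorem Pg7.not_dvd {p q : Pg7} (h : p ≠ q) : ¬ p.1 ∣ q.1 := by
  intro h1
  obtain ⟨u, hu⟩ := (p.prime.dvd_prime_iff_associated q.prime).1 h1
  rcases unit_eq u.isUnit with h2 | h2
  · rw [h2, mul_one] at hu
    exact h (Subtype.ext hu)
  · rw [h2] at hu
    have h3 := p.ra2
    have h4 := q.ra2
    rw [← hu, map_mul, map_neg, map_one] at h4
    revert h3 h4
    generalize ra p.1 = w
    revert w
    decide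

theorem Pg7.cop {p q : Pg7} (h : p ≠ q) : IsCoprime p.1 q.1 :=
  p.prime.irreducible.coprime_iff_not_dvd.2 (Pg7.not_dvd h)

/-! ### bits -/

/-- the bit `e` of `(-1)^e 5^f` modulo `8` -/
def bE (u : ZMod 8) : ZMod 2 := if u = 3 ∨ u = 7 then 1 else 0

/-- the bit `f` of `(-1)^e 5^f` modulo `8` -/
def bF (u : ZMod 8) : ZMod 2 := if u = 3 ∨ u = 5 then 1 else 0

theorem bE_mul {u w : ZMod 8} (hu : 4 * u = 4) (hw : 4 * w = 4) : bE (u * w) = bE u + bE w := by
  revert u w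
  decide

theorem bF_mul {u w : ZMod 8} (hu : 4 * u = 4) (hw : 4 * w = 4) : bF (u * w) = bF u + bF w := by
  revert u w
  decide

/-- `aa q`: the norm of `q` is `3` modulo `4` -/
def aa (q : Pg7) : ZMod 2 := bE (rb q.1)

/-- the bit `f` of `q` at `a` -/
def b1 (q : Pg7) : ZMod 2 := bF (ra q.1)

/-- the bit `f` of `q` at `ab` -/
def b2 (q : Pg7) : ZMod 2 := bF (rb q.1)

/-- the product of the primes of a set -/
def DD (S : Finset Pg7) : 𝓞 K := ∏ q ∈ S, q.1

theorem DD_ne (S : Finset Pg7) : DD S ≠ 0 := Finset.prod_ne_zero_iff.2 fun q _ => q.prime.ne_zero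

theorem DD_insert {q : Pg7} {S : Finset Pg7} (h : q ∉ S) : DD (insert q S) = q.1 * DD S :=
  Finset.prod_insert h

theorem DD_ta (S : Finset Pg7) : ¬ ta ∣ DD S := by
  intro h
  obtain ⟨q, -, h1⟩ := (ta_prime.dvd_finsetProd_iff _).1 h
  exact q.not_ta h1

theorem DD_tb (S : Finset Pg7) : ¬ tb ∣ DD S := by
  intro h
  obtain ⟨q, -, h1⟩ := (tb_prime.dvd_finsetProd_iff _).1 h
  exact q.not_tb h1

theorem DD_cop_ta (S : Finset Pg7) : IsCoprime (DD S) ta :=
  IsCoprime.prod_left fun q _ => q.cop_ta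

theorem DD_cop_tb (S : Finset Pg7) : IsCoprime (DD S) tb :=
  IsCoprime.prod_left fun q _ => q.cop_tb

theorem DD_cop {S : Finset Pg7} {q : Pg7} (h : q ∉ S) : IsCoprime q.1 (DD S) :=
  IsCoprime.prod_right fun p hp => Pg7.cop (by
    rintro rfl
    exact h hp)

theorem odd_ra {x : 𝓞 K} (h : ¬ ta ∣ x) : 4 * ra x = 4 := by
  rw [ta_dvd] at h
  exact (no_four _).resolve_left h

theorem odd_rb {x : 𝓞 K} (h : ¬ tb ∣ x) : 4 * rb x = 4 := by
  rw [tb_dvd] at h
  exact (no_four _).resolve_left h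

theorem bE_rb_DD (S : Finset Pg7) : bE (rb (DD S)) = ∑ q ∈ S, aa q := by
  classical
  induction S using Finset.induction_on with
  | empty =>
    rw [DD, Finset.prod_empty, map_one, Finset.sum_empty]
    decide
  | insert q S hq ih =>
    rw [DD_insert hq, map_mul, bE_mul (odd_rb q.not_tb) (odd_rb (DD_tb S)), ih,
      Finset.sum_insert hq]
    rfl

theorem bF_rb_DD (S : Finset Pg7) : bF (rb (DD S)) = ∑ q ∈ S, b2 q := by
  classical
  induction S using Finset.induction_on with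
  | empty =>
    rw [DD, Finset.prod_empty, map_one, Finset.sum_empty]
    decide
  | insert q S hq ih =>
    rw [DD_insert hq, map_mul, bF_mul (odd_rb q.not_tb) (odd_rb (DD_tb S)), ih,
      Finset.sum_insert hq]
    rfl

theorem bF_ra_DD (S : Finset Pg7) : bF (ra (DD S)) = ∑ q ∈ S, b1 q := by
  classical
  induction S using Finset.induction_on with
  | empty =>
    rw [DD, Finset.prod_empty, map_one, Finset.sum_empty]
    decide
  | insert q S hq ih =>
    rw [DD_insert hq, map_mul, bF_mul (odd_ra q.not_ta) (odd_ra (DD_ta S)), ih,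
      Finset.sum_insert hq]
    rfl

theorem bE_ra_DD (S : Finset Pg7) : bE (ra (DD S)) = 0 := by
  classical
  induction S using Finset.induction_on with
  | empty =>
    rw [DD, Finset.prod_empty, map_one]
    decide
  | insert q S hq ih =>
    rw [DD_insert hq, map_mul, bE_mul (odd_ra q.not_ta) (odd_ra (DD_ta S)), ih, add_zero]
    have h := q.ra2
    revert h
    generalize ra q.1 = u
    revert u
    decide

theorem DD_in (S : Finset Pg7) : ta ^ 2 ∣ DD S - 1 := by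
  rw [ta2_dvd, map_sub, map_one]
  have h1 := bE_ra_DD S
  have h2 := odd_ra (DD_ta S)
  revert h1 h2
  generalize ra (DD S) = u
  revert u
  decide

/-! ### the quadratic symbol -/

/-- the ideal of a prime -/
def Pg7.I (q : Pg7) : Ideal (𝓞 K) := Ideal.span {q.1}

instance (q : Pg7) : q.I.IsMaximal :=
  ((Ideal.span_singleton_prime q.prime.ne_zero).2 q.prime).isMaximal (by
    rw [Ne, Ideal.span_singleton_eq_bot]
    exact q.prime.ne_zero)

instance (q : Pg7) : Field (𝓞 K ⧸ q.I) := Ideal.Quotient.field _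

instance (q : Pg7) : Finite (𝓞 K ⧸ q.I) :=
  Ideal.finiteQuotientOfFreeOfNeBot _ (by
    rw [Ne, Pg7.I, Ideal.span_singleton_eq_bot]
    exact q.prime.ne_zero)

instance (q : Pg7) : Fintype (𝓞 K ⧸ q.I) := Fintype.ofFinite _

instance (q : Pg7) : DecidableEq (𝓞 K ⧸ q.I) := Classical.decEq _

theorem Pg7.mk_zero (q : Pg7) {x : 𝓞 K} : Ideal.Quotient.mk q.I x = 0 ↔ q.1 ∣ x := by
  rw [Ideal.Quotient.eq_zero_iff_mem, Pg7.I, Ideal.mem_span_singleton]

theorem Pg7.char_ne (q : Pg7) : ringChar (𝓞 K ⧸ q.I) ≠ 2 := by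
  intro h
  apply q.not_two
  rw [← q.mk_zero]
  have h1 : ((2 : ℕ) : 𝓞 K ⧸ q.I) = 0 := by
    rw [← h]
    exact ringChar.Nat.cast_ringChar
  have e : Ideal.Quotient.mk q.I (2 : 𝓞 K) = ((2 : ℕ) : 𝓞 K ⧸ q.I) := by
    rw [← map_natCast (Ideal.Quotient.mk q.I)]
    norm_num
  rw [e, h1]

/-- the quadratic symbol modulo `q` -/
def ch (q : Pg7) (x : 𝓞 K) : ℤ := quadraticChar (𝓞 K ⧸ q.I) (Ideal.Quotient.mk q.I x)

theorem ch_mul (q : Pg7) (x y : 𝓞 K) : ch q (x * y) = ch q x * ch q y := by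
  rw [ch, map_mul, map_mul]
  rfl

theorem ch_one (q : Pg7) : ch q 1 = 1 := by rw [ch, map_one, map_one]

theorem ch_per (q : Pg7) {x y : 𝓞 K} (h : q.1 ∣ x - y) : ch q x = ch q y := by
  rw [ch, ch]
  congr 1
  rw [Ideal.Quotient.eq, Pg7.I, Ideal.mem_span_singleton]
  exact h

theorem ch_zero {q : Pg7} {x : 𝓞 K} (h : q.1 ∣ x) : ch q x = 0 := by
  rw [ch, quadraticChar_eq_zero_iff, q.mk_zero]
  exact h

theorem ch_or {q : Pg7} {x : 𝓞 K} (h : ¬ q.1 ∣ x) : ch q x = 1 ∨ ch q x = -1 := by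
  rw [ch]
  refine quadraticChar_dichotomy ?_
  rwa [Ne, q.mk_zero]

theorem ch_sq {q : Pg7} {x : 𝓞 K} (h : ¬ q.1 ∣ x) : ch q x ^ 2 = 1 := by
  rcases ch_or h with h | h <;> rw [h] <;> norm_num

theorem ch_eq_zero {q : Pg7} {x : 𝓞 K} : ch q x = 0 ↔ q.1 ∣ x := by
  constructor
  · intro h
    by_contra h1
    rcases ch_or h1 with h2 | h2 <;> rw [h2] at h <;> omega
  · exact ch_zero

theorem exists_ch (q : Pg7) : ∃ x : 𝓞 K, ch q x = -1 := by
  obtain ⟨y, hy⟩ := quadraticChar_exists_neg_one q.char_ne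
  obtain ⟨x, rfl⟩ := Ideal.Quotient.mk_surjective y
  exact ⟨x, hy⟩

/-- the square classes -/
theorem ch_one_iff {q : Pg7} {x : 𝓞 K} (h : ¬ q.1 ∣ x) : ch q x = 1 ↔ ∃ y, q.1 ∣ x - y ^ 2 := by
  rw [ch, quadraticChar_one_iff_isSquare (by rwa [Ne, q.mk_zero])]
  constructor
  · rintro ⟨r, hr⟩
    obtain ⟨y, rfl⟩ := Ideal.Quotient.mk_surjective r
    refine ⟨y, ?_⟩
    rw [← q.mk_zero, map_sub, map_pow, hr]
    ring
  · rintro ⟨y, hy⟩
    refine ⟨Ideal.Quotient.mk q.I y, ?_⟩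
    rw [← q.mk_zero, map_sub, map_pow] at hy
    linear_combination hy

/-- the bit of the symbol -/
def sb (q : Pg7) (x : 𝓞 K) : ZMod 2 := if ch q x = -1 then 1 else 0

theorem sb_mul {q : Pg7} {x y : 𝓞 K} (hx : ¬ q.1 ∣ x) (hy : ¬ q.1 ∣ y) :
    sb q (x * y) = sb q x + sb q y := by
  rw [sb, sb, sb, ch_mul]
  rcases ch_or hx with h1 | h1 <;> rcases ch_or hy with h2 | h2 <;> rw [h1, h2] <;> decide

theorem sb_per (q : Pg7) {x y : 𝓞 K} (h : q.1 ∣ x - y) : sb q x = sb q y := by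
  rw [sb, sb, ch_per q h]

theorem sb_one (q : Pg7) : sb q 1 = 0 := by
  rw [sb, ch_one]
  decide

theorem sb_prod {q : Pg7} {T : Finset Pg7} (h : q ∉ T) : sb q (DD T) = ∑ p ∈ T, sb q p.1 := by
  classical
  induction T using Finset.induction_on with
  | empty => rw [DD, Finset.prod_empty, sb_one, Finset.sum_empty]
  | insert p T hp ih =>
    rw [Finset.mem_insert, not_or] at h
    rw [DD_insert hp, sb_mul (Pg7.not_dvd h.1) ?_, ih h.2, Finset.sum_insert hp]
    intro h1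
    obtain ⟨r, hr, h2⟩ := (q.prime.dvd_finsetProd_iff _).1 h1
    exact Pg7.not_dvd (p := q) (q := r) (by
      rintro rfl
      exact h.2 hr) h2

end

end Pool.Agent.Lib.MP_1a91b9_ntV
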